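import Mathlib
import Pool.Agent.T6.H32.LS.Problem
import Pool.Agent.T6.H32.LS.CFZ
import Pool.Agent.T6.H32.LS.CFC
import Pool.Agent.T6.H32.LS.LIST
import Pool.Agent.T6.H32.LS.UNQ
import Pool.Agent.T6.H32.LS.SUM
import Pool.Agent.T6.H32.LS.DEC
import Pool.Agent.T6.H32.LS.SAM
import Pool.Agent.T6.H32.LS.INJ
import Pool.Agent.T6.H32.LS.EXA
import Pool.Agent.T6.H32.LS.EXB
import Pool.Agent.T6.H32.LS.REV
import Pool.Agent.T6.H32.LS.ALG
import Pool.Agent.T6.H32.LS.ALB
import Pool.Agent.T6.H32.LS.ARI
import Pool.Agent.T6.H32.LS.THR
import Pool.Agent.T6.H32.LS.TREE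
import Pool.Agent.T6.H32.LS.PARA
import Pool.Agent.T6.H32.LS.PARB
import Pool.Agent.T6.H32.LS.FIN

/-!
MP_7470a2_gt, Q1 (helper32, with helper24, helper50, helper57, helper58, helper70, helper80 and
helper82): the lens spaces with exactly two symplectic fillings with second Betti number one.

By Lisca the minimal fillings of `L(n, a)` correspond to the admissible tuples `k` with
`[k₁, …, k_s] = 0` and `k_i ≤ b_i`, where `n / (n - a) = [b₁, …, b_s]`; the filling of `k` has
second Betti number `∑ (b_i - k_i) - 1`; two of them are equivalent if and only if the tuples are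
equal, or reversed and `a² ≡ 1 (mod n)`.

Idea of the proof.  Let `x₀, x₁, …, x_(s+1)` be the vectors of `ℤ²` with `x₀ = (1, 0)`,
`x₁ = (1, 1)`, `x_(i-1) + x_(i+1) = b_i x_i`; then `x_(s+1) = (a, n)`.  A tuple `k` with defect two
corresponds to two primitive vectors `u, v` with `(a, n) = T_u T_v (-x₀)` (transvections), and the
product `T_u T_v` does not depend on `k`, because the sum of the entries of `k` does not.  Two
decompositions `T_u T_v = T_u' T_v'` are related by integers `r, s > 0` with
`r² + s² + d r s = d²`, `d = [u, v]`, i.e. `r² + s² = c (c + r s)` with `c = d - r s`, an equation of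
Markov type whose solutions are generated by three moves; three decompositions are impossible by an
argument modulo 8.
-/

set_option autoImplicit false

open Pool.Agent.T6.H32.LS

namespace Pool.Agent.Results.MP_7470a2_gt.ExactlyTwoFillings

/-- Let `0 < a < n` be coprime.  `L(n, a)` has exactly two inequivalent fillings with second Betti
number one if and only if `(n, a)` is given by the explicit parameters of `Param`. -/
theorem result (n a : ℤ) (ha : 0 < a) (han : a < n) (hc : IsCoprime n a) :
    ExactlyTwo n a ↔ Param n a :=
  fin cfz cfc listStm dec (sam unq sum) (inj unq) (exb exa) (rev unq) alg (thr alg ari)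
    (fun n a ha han => ⟨para tree n a ha han, parb tree alb n a ha han⟩) n a ha han hc

end Pool.Agent.Results.MP_7470a2_gt.ExactlyTwoFillings
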